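import Pool.Agent.H27.CAL.Stmts2

/-! # CAL module EAPP -/

open scoped BigOperators ENNReal Topology
open Filter

namespace CAL

section
variable {𝕜 : Type*} [RCLike 𝕜] {A : Type*} [PartialOrder A] {Y : Type*} [NormedAddCommGroup Y]
  [NormedSpace 𝕜 Y] {τ : TreeLev A}

omit [PartialOrder A] in
theorem eapp_abs {X : Type*} [NormedAddCommGroup X] [NormedSpace 𝕜 X] (S P : X →L[𝕜] X)
    (N : Finset A) (J : A → Y →L[𝕜] X) (d : A → X →L[𝕜] Y) (Q K : A → Y →L[𝕜] X)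
    (F : X →L[𝕜] X) (e : ℝ) (he : 0 < e) (h1 : ‖S - S.comp P‖ ≤ e / 2)
    (h2 : S.comp P = ∑ a ∈ N, (S.comp (J a)).comp (d a) + F)
    (h3 : ∀ a, ‖S.comp (J a) - Q a - K a‖ ≤ e / 2 / (∑ a ∈ N, ‖d a‖ + 1)) :
    ‖S - (∑ a ∈ N, ((Q a).comp (d a) + (K a).comp (d a)) + F)‖ ≤ e := by
  have hB0 : 0 ≤ ∑ a ∈ N, ‖d a‖ := Finset.sum_nonneg (fun a _ => norm_nonneg _)
  set B : ℝ := ∑ a ∈ N, ‖d a‖ + 1 with hB
  have hBpos : 0 < B := by linarith
  have key : S - (∑ a ∈ N, ((Q a).comp (d a) + (K a).comp (d a)) + F) = (S - S.comp P) +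
      ∑ a ∈ N, (S.comp (J a) - Q a - K a).comp (d a) := by
    rw [h2]
    have h4 : ∑ a ∈ N, (S.comp (J a) - Q a - K a).comp (d a)
        = ∑ a ∈ N, (S.comp (J a)).comp (d a) -
          ∑ a ∈ N, ((Q a).comp (d a) + (K a).comp (d a)) := by
      rw [← Finset.sum_sub_distrib]
      refine Finset.sum_congr rfl (fun a _ => ?_)
      ext1 x
      simp only [sub_apply, ContinuousLinearMap.comp_apply, add_apply]
      abel
    rw [h4]
    abel
  rw [key]
  refine (norm_add_le _ _).trans ?_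
  have h5 : ‖∑ a ∈ N, (S.comp (J a) - Q a - K a).comp (d a)‖ ≤ e / 2 := by
    refine (norm_sum_le _ _).trans ?_
    have h4 : ∀ a ∈ N, ‖(S.comp (J a) - Q a - K a).comp (d a)‖ ≤ e / 2 / B * ‖d a‖ := by
      intro a _
      exact (ContinuousLinearMap.opNorm_comp_le _ _).trans
        (mul_le_mul_of_nonneg_right (h3 a) (norm_nonneg _))
    refine (Finset.sum_le_sum h4).trans ?_
    rw [← Finset.mul_sum]
    have h5 : e / 2 / B * ∑ a ∈ N, ‖d a‖ ≤ e / 2 / B * B :=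
      mul_le_mul_of_nonneg_left (by linarith) (by positivity)
    have h6 : e / 2 / B * B = e / 2 := by field_simp
    linarith
  linarith

theorem eapp_RX_add (D : Dat 𝕜 Y τ) (m m' : (A × A) →₀ 𝕜) :
    D.RX (m + m') = D.RX m + D.RX m' := by
  classical
  unfold Dat.RX
  refine Finsupp.sum_add_index' (fun a => ?_) (fun a b c => ?_)
  · ext1 x
    simp
  · ext1 x
    simp [add_smul]

theorem eapp_RX_single (D : Dat 𝕜 Y τ) (ab : A × A) (c : 𝕜) :
    D.RX (Finsupp.single ab c) = c • ((D.Jn ab.1).comp (D.dn ab.2)) := by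
  unfold Dat.RX
  refine Finsupp.sum_single_index ?_
  ext1 x
  simp

theorem eapp_RX_zero (D : Dat 𝕜 Y τ) : D.RX 0 = 0 := by
  unfold Dat.RX
  rw [Finsupp.sum_zero_index]

/-- matrix plus compact -/
def EappM (D : Dat 𝕜 Y τ) (U : D.X →L[𝕜] D.X) : Prop :=
  ∃ (m : (A × A) →₀ 𝕜) (K : D.X →L[𝕜] D.X), IsCompactOperator K ∧ U = D.RX m + K

theorem eapp_add {D : Dat 𝕜 Y τ} {U V : D.X →L[𝕜] D.X} (hU : EappM D U) (hV : EappM D V) :
    EappM D (U + V) := by
  obtain ⟨m, K, hK, rfl⟩ := hU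
  obtain ⟨m', K', hK', rfl⟩ := hV
  refine ⟨m + m', K + K', hK.add hK', ?_⟩
  rw [eapp_RX_add]; abel

theorem eapp_comp {D : Dat 𝕜 Y τ} {K : D.X →L[𝕜] D.X} (hK : IsCompactOperator K) :
    EappM D K := ⟨0, K, hK, by rw [eapp_RX_zero]; ext1 x; simp⟩

theorem eapp_sum {D : Dat 𝕜 Y τ} {ι : Type*} (s : Finset ι) (U : ι → D.X →L[𝕜] D.X)
    (h : ∀ i ∈ s, EappM D (U i)) : EappM D (∑ i ∈ s, U i) := by
  classical
  induction s using Finset.induction_on with
  | empty =>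
    rw [Finset.sum_empty]
    exact eapp_comp isCompactOperator_zero
  | insert i s hi ih =>
    rw [Finset.sum_insert hi]
    exact eapp_add (h i (Finset.mem_insert_self _ _))
      (ih (fun k hk => h k (Finset.mem_insert_of_mem hk)))

/-- rank one operators are compact -/
theorem eapp_rank {E G : Type*} [NormedAddCommGroup E] [NormedSpace 𝕜 E] [NormedAddCommGroup G]
    [NormedSpace 𝕜 G] (f : E →L[𝕜] 𝕜) (v : G) : IsCompactOperator (f.smulRight v) := by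
  have h1 : IsCompactOperator f := isCompactOperator_of_locallyCompactSpace_dom f
  have h2 := h1.clm_comp (ContinuousLinearMap.toSpanSingleton 𝕜 v)
  have h3 : (f.smulRight v : E → G) = (ContinuousLinearMap.toSpanSingleton 𝕜 v) ∘ f := by
    ext x
    simp
  rw [h3]
  exact h2

/-- finite sets of nodes and coordinates of level at most p -/
theorem eapp_fin (D : Dat 𝕜 Y τ) (p : ℕ) : ∃ (N : Finset A) (G : Finset ℕ),
    (∀ a, a ∈ N ↔ τ.lev a ≤ p) ∧ (∀ γ, γ ∈ G ↔ D.lev γ ≤ p) :=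
  ⟨(τ.fin p).toFinset, (D.fin p).toFinset, fun a => by simp, fun γ => by simp⟩

/-- PX as a finite sum of operators -/
theorem eapp_PX (D : Dat 𝕜 Y τ) (hB : BIOStmt D) (p : ℕ) (N : Finset A) (G : Finset ℕ)
    (hN : ∀ a, a ∈ N ↔ τ.lev a ≤ p) (hG : ∀ γ, γ ∈ G ↔ D.lev γ ≤ p) :
    D.PX p = ∑ a ∈ N, (D.Jn a).comp (D.dn a) + ∑ γ ∈ G, (D.ds γ).smulRight (D.dv γ) := by
  obtain ⟨-, -, -, -, -, -, -, -, -, -, -, -, -, h⟩ := hB
  ext1 x
  rw [h p N G hN hG x]
  simp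

/-- S Jn a dn a for a compact-plus-level part -/
theorem eapp_node (D : Dat 𝕜 Y τ) (hB : BIOStmt D) (hY : GoodY 𝕜 Y) (R : Y →L[𝕜] D.X) (n : ℕ)
    (a : A) : EappM D (((D.PX n).comp R).comp (D.dn a)) := by
  classical
  obtain ⟨N, G, hN, hG⟩ := eapp_fin D n
  rw [eapp_PX D hB n N G hN hG]
  have h1 : ((∑ a ∈ N, (D.Jn a).comp (D.dn a) + ∑ γ ∈ G, (D.ds γ).smulRight (D.dv γ)).comp
      R).comp (D.dn a) =
      ∑ b ∈ N, (D.Jn b).comp ((((D.dn b).comp R)).comp (D.dn a)) +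
      ∑ γ ∈ G, (((D.ds γ).comp (R.comp (D.dn a))).smulRight (D.dv γ)) := by
    ext1 x
    simp
  rw [h1]
  apply eapp_add
  · apply eapp_sum
    intro b _
    obtain ⟨c, hc⟩ := hY.sc ((D.dn b).comp R)
    refine ⟨Finsupp.single (b, a) c, (D.Jn b).comp
      ((((D.dn b).comp R) - c • ContinuousLinearMap.id 𝕜 Y).comp (D.dn a)), ?_, ?_⟩
    · exact (hc.comp_clm (D.dn a)).clm_comp (D.Jn b)
    · rw [eapp_RX_single]
      ext1 x
      simp
  · apply eapp_sum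
    intro γ _
    exact eapp_comp (eapp_rank _ _)

theorem cal_eapp (D : Dat 𝕜 Y τ) (hO : OPERStmt D) (hB : BIOStmt D) : EAPPStmt D := by
  classical
  intro Ch F w R hPT hY hCO T
  obtain ⟨c, hc⟩ := hO F w R hPT T
  refine ⟨c, fun e he => ?_⟩
  obtain ⟨n, hn⟩ := hc (e / 2) (by positivity)
  have hn' := hn n le_rfl
  set S : D.X →L[𝕜] D.X := T - c • ContinuousLinearMap.id 𝕜 D.X with hS
  have hSn : ‖S - S.comp (D.PX n)‖ ≤ e / 2 := by
    refine ContinuousLinearMap.opNorm_le_bound _ (by positivity) (fun x => ?_)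
    have h := hn' x
    have h1 : (S - S.comp (D.PX n)) x = T (x - D.PX n x) - c • (x - D.PX n x) := by
      simp only [hS, sub_apply, ContinuousLinearMap.comp_apply, smul_apply,
        ContinuousLinearMap.id_apply, map_sub, smul_sub]
      abel
    rw [h1]; exact h
  obtain ⟨N, G, hN, hG⟩ := eapp_fin D n
  -- the constants
  set B : ℝ := ∑ a ∈ N, ‖D.dn a‖ + 1 with hBdef
  have hB0 : 0 ≤ ∑ a ∈ N, ‖D.dn a‖ := Finset.sum_nonneg (fun a _ => (D.dn a).opNorm_nonneg)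
  have hBpos : 0 < B := by linarith
  have hch : ∀ a : A, ∃ (q : ℕ) (K : Y →L[𝕜] D.X), IsCompactOperator K ∧
      ‖S.comp (D.Jn a) - (D.PX q).comp (S.comp (D.Jn a)) - K‖ ≤ e / 2 / B := by
    intro a
    obtain ⟨q, hq⟩ := hCO (S.comp (D.Jn a)) (e / 2 / B) (by positivity)
    obtain ⟨K, hK1, hK2⟩ := hq q le_rfl
    exact ⟨q, K, hK1, hK2⟩
  choose q K hK1 hK2 using hch
  have hU : EappM D (∑ a ∈ N, (((D.PX (q a)).comp (S.comp (D.Jn a))).comp (D.dn a) +
      (K a).comp (D.dn a)) + ∑ γ ∈ G, (D.ds γ).smulRight (S (D.dv γ))) := by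
    apply eapp_add
    · apply eapp_sum
      intro a _
      exact eapp_add (eapp_node D hB hY _ _ _) (eapp_comp ((hK1 a).comp_clm (D.dn a)))
    · apply eapp_sum
      intro γ _
      exact eapp_comp (eapp_rank _ _)
  obtain ⟨m, K', hK', hm⟩ := hU
  refine ⟨m, K', hK', ?_⟩
  have hSP : S.comp (D.PX n) = ∑ a ∈ N, (S.comp (D.Jn a)).comp (D.dn a) +
      ∑ γ ∈ G, (D.ds γ).smulRight (S (D.dv γ)) := by
    rw [eapp_PX D hB n N G hN hG]
    ext1 x
    simp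
  have h1 : S - D.RX m - K' = S - (D.RX m + K') := by
    ext1 x
    simp only [sub_apply, add_apply]
    abel
  rw [h1, ← hm]
  exact eapp_abs S (D.PX n) N D.Jn D.dn (fun a => (D.PX (q a)).comp (S.comp (D.Jn a))) K _ e he
    hSn hSP hK2

end

end CAL
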