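import Pool.Agent.H27.CAL.Stmts2

/-! # CAL module STEP -/

open scoped BigOperators ENNReal Topology
open Filter

namespace CAL

section
variable {𝕜 : Type*} [RCLike 𝕜] {A : Type*} {Y : Type*} [NormedAddCommGroup Y]
  [NormedSpace 𝕜 Y]

theorem step_ev_smul (r : 𝕜) (b : Fn 𝕜 A Y) (x : Pt 𝕜 A Y) : ev (r • b) x = r * ev b x := by
  classical
  unfold ev
  rw [Prod.smul_fst, Prod.smul_snd, Finsupp.sum_smul_index' (by intro; simp),
    Finsupp.sum_smul_index' (by intro; simp)]
  simp only [Finsupp.sum, smul_eq_mul, smul_apply, mul_add, Finset.mul_sum]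
  congr 1
  exact Finset.sum_congr rfl (fun i _ => by ring)

theorem step_nrm_smul (r : 𝕜) (b : Fn 𝕜 A Y) : nrm (r • b) = ‖r‖ * nrm b := by
  classical
  unfold nrm
  rw [Prod.smul_fst, Prod.smul_snd, Finsupp.sum_smul_index' (by intro; simp),
    Finsupp.sum_smul_index' (by intro; simp)]
  simp only [Finsupp.sum, norm_smul, mul_add, Finset.mul_sum]

end

section
variable {𝕜 : Type*} [RCLike 𝕜] {A : Type*} [PartialOrder A] {Y : Type*} [NormedAddCommGroup Y]
  [NormedSpace 𝕜 Y] {τ : TreeLev A}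

theorem step_evX_smul (D : Dat 𝕜 Y τ) (r : 𝕜) (b : Fn 𝕜 A Y) (x : D.X) :
    D.evX (r • b) x = r * D.evX b x := by
  rw [D.evX_apply, D.evX_apply, step_ev_smul]

theorem step_evX_sub (D : Dat 𝕜 Y τ) (b c : Fn 𝕜 A Y) (x : D.X) :
    D.evX (b - c) x = D.evX b x - D.evX c x := by
  rw [D.evX_apply, D.evX_apply, D.evX_apply, ev_sub_left]

/-- close to the end all coordinates of u are determined up to e by PX -/
theorem step_tail (D : Dat 𝕜 Y τ) (u : D.X) {e : ℝ} (he : 0 < e) :
    ∃ n, ∀ p ≥ n, ‖u - D.PX p u‖ ≤ e := by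
  obtain ⟨n, hn⟩ := (Metric.tendsto_atTop.1 (D.tendsto_PX u)) e he
  refine ⟨n, fun p hp => ?_⟩
  have := hn p hp
  rw [dist_eq_norm, norm_sub_rev] at this
  exact this.le

theorem cal_step (D : Dat 𝕜 Y τ) (hEV : EVALStmt D) (hT : TAILStmt D) (hR : REPStmt D) :
    STEPStmt D := by
  intro Ch F w R j hj z z' f s hf hfs e he ξ hξ
  set e0 : ℝ := e / 4 with he0
  have he0' : 0 < e0 := by positivity
  obtain ⟨n1, hn1⟩ := step_tail D z he0'
  obtain ⟨n2, hn2⟩ := step_tail D z' he0'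
  set n : ℕ := max s (max n1 n2) with hn
  have hsn : s ≤ n := le_max_left _ _
  have hn1' : n1 ≤ n := (le_max_left _ _).trans (le_max_right _ _)
  have hn2' : n2 ≤ n := (le_max_right _ _).trans (le_max_right _ _)
  obtain ⟨c0, hc1, hc2, hc3, hc4⟩ := hR f n
  set c : Fn 𝕜 A Y := (2⁻¹ : 𝕜) • c0 with hc
  have h2 : ‖(2⁻¹ : 𝕜)‖ = 2⁻¹ := by
    rw [norm_inv, RCLike.norm_ofNat]
  have hcn : nrm c ≤ 1 := by
    rw [hc, step_nrm_smul, h2]
    linarith
  have hcs : ∀ β ∈ c.1.support, D.lev β ≤ n := by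
    intro β hβ
    exact hc1 β (Finsupp.support_smul hβ)
  have hca : ∀ a ∈ c.2.support, τ.lev a ≤ n := by
    intro a ha
    exact hc2 a (Finsupp.support_smul ha)
  set M : ℝ := max ‖z‖ ‖z'‖ + 1 with hM
  have hMz : ‖z‖ ≤ M := (le_max_left _ _).trans (by linarith)
  have hMz' : ‖z'‖ ≤ M := (le_max_right _ _).trans (by linarith)
  have hMpos : 0 < M := by
    have := norm_nonneg z
    have := le_max_left ‖z‖ ‖z'‖
    linarith
  set δ : ℝ := e / (4 * M) with hδ
  have hδ0 : 0 < δ := by positivity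
  have hδM : δ * M = e / 4 := by rw [hδ]; field_simp
  obtain ⟨n0, hn0⟩ := R.even_rich j hj n c hcn hcs hca δ hδ0
  refine ⟨max n0 (n + 1), fun p hp hp1 hp2 => ?_⟩
  have hpn0 : n0 ≤ p := (le_max_left _ _).trans hp
  have hpn : n + 1 ≤ p := (le_max_right _ _).trans hp
  obtain ⟨γ, hg1, hg2, hg3, hg4⟩ := hn0 p hpn0 ξ hp1 (fun ζ hζ =>
    ⟨(hξ ζ hζ).1, by have := (hξ ζ hζ).2; omega, hp2 ζ hζ⟩)
  refine ⟨γ, hg1, hg2, hg3, ?_⟩
  -- the general estimate
  have main : ∀ u : D.X, ‖u‖ ≤ M → (∀ q ≥ n, ‖u - D.PX q u‖ ≤ e0) →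
      ‖D.co γ u - ξ.elim 0 (fun ζ => D.co ζ u) - 2⁻¹ * mi 𝕜 j * f u‖ ≤ e ∧
            ∀ γ', D.Anc γ γ' → ‖D.co γ' u - D.co γ u‖ ≤ e := by
    intro u huM hut
    constructor
    · have hds : ‖D.ds γ u‖ ≤ e0 := by
        refine (hEV.2.2 γ u).trans (hut _ ?_)
        omega
      have hcu : D.evX c u = 2⁻¹ * D.evX c0 u := step_evX_smul D _ _ _
      -- evX c0 u = evX c0 (PX n u) since the support has levels ≤ n
      have hc0u : D.evX c0 u = D.evX c0 (D.PX n u) := by
        rw [D.evX_apply, D.evX_apply]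
        apply ev_congr
        · intro β hβ
          have := D.co_PX_le u (hc1 β hβ)
          rw [D.co_apply, D.co_apply] at this
          exact this.symm
        · intro a ha
          have := D.nd_PX n a u
          rw [τ.ret_self (hc2 a ha)] at this
          simp only [Option.elim_some] at this
          rw [D.nd_apply, D.nd_apply] at this
          exact this.symm
      have hfPP : ∀ q, q ≤ s → f (D.PX q u) = 0 := by
        intro q hq
        have := hfs (D.PX q u)
        rwa [D.PX_PX, min_eq_right hq] at this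
      have hfu : D.evX c0 u = f (D.PX n u) := by
        have h1 := hc4 (D.PX n u)
        rw [D.PX_PX, min_self] at h1
        rw [hc0u, h1]
      have hc0q : ∀ q, q ≤ s → D.evX c0 (D.PX q u) = 0 := by
        intro q hq
        have h1 := hc4 (D.PX q u)
        rw [D.PX_PX, min_eq_right (hq.trans hsn), hfPP q hq] at h1
        exact h1.symm
      have hfn : ‖f (D.PX n u) - f u‖ ≤ e0 := by
        rw [← map_sub]
        refine (f.le_opNorm _).trans ?_
        rw [norm_sub_rev]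
        have h9 := mul_le_mul hf (hut n le_rfl) (norm_nonneg _) zero_le_one
        linarith
      have hb1 : ‖D.evX (D.b γ) u - 2⁻¹ * f (D.PX n u)‖ ≤ e / 4 := by
        rw [← hfu, ← hcu, ← step_evX_sub]
        refine (D.norm_evX_le _ _).trans ?_
        rw [← hδM]
        exact mul_le_mul hg4 huM (norm_nonneg _) hδ0.le
      have hmi : ‖mi 𝕜 j‖ ≤ 1 / 4 := by
        rw [norm_mi]; exact mm_inv_le j
      have hmi0 : 0 ≤ ‖mi 𝕜 j‖ := norm_nonneg _
      have h2f : ‖2⁻¹ * f (D.PX n u) - 2⁻¹ * f u‖ ≤ e / 8 := by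
        rw [← mul_sub, norm_mul, h2]
        linarith
      rcases ξ with _ | ζ
      · simp only [Option.elim_none, sub_zero]
        have h1 := hEV.1 γ u hg3
        rw [hg2] at h1
        have h3 : D.co γ u - 2⁻¹ * mi 𝕜 j * f u = D.ds γ u + mi 𝕜 j *
            ((D.evX (D.b γ) u - 2⁻¹ * f (D.PX n u)) + (2⁻¹ * f (D.PX n u) - 2⁻¹ * f u)) := by
          rw [h1]; ring
        rw [h3]
        refine (norm_add_le _ _).trans ?_
        rw [norm_mul]
        have h4 : ‖(D.evX (D.b γ) u - 2⁻¹ * f (D.PX n u)) +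
          (2⁻¹ * f (D.PX n u) - 2⁻¹ * f u)‖ ≤ e / 4 + e / 8 :=
          (norm_add_le _ _).trans (add_le_add hb1 h2f)
        have h5 := mul_le_mul hmi h4 (norm_nonneg _) (by norm_num)
        linarith
      · simp only [Option.elim_some]
        have hζ := (hξ ζ rfl).2
        have hb2 : ‖D.evX (D.b γ) (D.PX (D.lev ζ) u)‖ ≤ e / 2 := by
          have h6 : D.evX (D.b γ) (D.PX (D.lev ζ) u) =
              D.evX (D.b γ - c) (D.PX (D.lev ζ) u) := by
            rw [step_evX_sub, hc, step_evX_smul, hc0q _ hζ, mul_zero, sub_zero]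
          rw [h6]
          refine (D.norm_evX_le _ _).trans ?_
          have h7 := D.norm_PX_le (D.lev ζ) u
          have h8 : nrm (D.b γ - c) * ‖D.PX (D.lev ζ) u‖ ≤ δ * (2 * M) :=
            mul_le_mul hg4 (by linarith) (norm_nonneg _) hδ0.le
          linarith
        have h1 := hEV.2.1 γ ζ u hg3
        rw [hg2] at h1
        have h3 : D.co γ u - D.co ζ u - 2⁻¹ * mi 𝕜 j * f u = D.ds γ u + mi 𝕜 j *
            ((D.evX (D.b γ) u - 2⁻¹ * f (D.PX n u)) + (2⁻¹ * f (D.PX n u) - 2⁻¹ * f u)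
              - D.evX (D.b γ) (D.PX (D.lev ζ) u)) := by
          rw [h1]; ring
        rw [h3]
        refine (norm_add_le _ _).trans ?_
        rw [norm_mul]
        have h4 : ‖(D.evX (D.b γ) u - 2⁻¹ * f (D.PX n u)) +
          (2⁻¹ * f (D.PX n u) - 2⁻¹ * f u) - D.evX (D.b γ) (D.PX (D.lev ζ) u)‖ ≤
            e / 4 + e / 8 + e / 2 :=
          (norm_sub_le _ _).trans (add_le_add ((norm_add_le _ _).trans (add_le_add hb1 h2f)) hb2)
        have h5 := mul_le_mul hmi h4 (norm_nonneg _) (by norm_num)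
        linarith
    · intro γ' hγ'
      have h1 := hT γ γ' u hγ'
      rw [← h1, ← map_sub, hg1]
      refine (D.norm_co_le _ _).trans ((hut p (by omega)).trans ?_)
      linarith
  intro u hu
  rcases hu with hu | hu
  · subst hu
    exact main _ hMz (fun q hq => hn1 q (hn1'.trans hq))
  · have hu' : u = z' := hu
    subst hu'
    exact main _ hMz' (fun q hq => hn2 q (hn2'.trans hq))

end

end CAL
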